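import Pool.Agent.Lib.MP_e1f7e2_al.FA.Iface2
import Pool.Agent.Lib.MP_e1f7e2_al.FA.H74.Efin
import Pool.Agent.Lib.MP_e1f7e2_al.FA.H47.Degb
import Pool.Agent.Lib.MP_e1f7e2_al.FA.H41.Mem

set_option autoImplicit false

/-!
Project FA (MP_e1f7e2_al): module BD.
-/

open MulOpposite

namespace Pool.Agent.Lib.MP_e1f7e2_al.FA.H19

section

variable {K : Type*} [Field K] {n : ℕ}

theorem len_iff {m : ℕ} {f : A K n} : Len m f ↔ ∀ u, f.coeff u ≠ 0 → u.toList.length ≤ m := by
  unfold Len
  simp only [Finsupp.mem_support_iff]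

theorem len_mono {m m' : ℕ} {f : A K n} (h : Len m f) (hm : m ≤ m') : Len m' f :=
  fun u hu => (h u hu).trans hm

theorem len_add {m : ℕ} {f g : A K n} (hf : Len m f) (hg : Len m g) : Len m (f + g) := by
  rw [len_iff] at *
  intro u hu
  rw [H47.Gr.coeff_add] at hu
  by_cases h : f.coeff u = 0
  · rw [h, zero_add] at hu
    exact hg u hu
  · exact hf u h

theorem len_sub {m : ℕ} {f g : A K n} (hf : Len m f) (hg : Len m g) : Len m (f - g) := by
  rw [len_iff] at *
  intro u hu
  rw [H47.Gr.coeff_sub] at hu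
  by_cases h : f.coeff u = 0
  · rw [h, zero_sub, neg_ne_zero] at hu
    exact hg u hu
  · exact hf u h

theorem len_mul {a b : ℕ} {f g : A K n} (hf : Len a f) (hg : Len b g) : Len (a + b) (f * g) := by
  rw [len_iff] at *
  intro u hu
  obtain ⟨x, y, hx, hy, rfl⟩ := H47.Gr.supp_mul (ω := fun _ => (0 : ℝ)) (fun _ _ => by simp) hu
  rw [FreeMonoid.toList_mul, List.length_append]
  exact Nat.add_le_add (hf x hx) (hg y hy)

theorem len_one_smul (c : K) : Len 0 (c • (1 : A K n)) := by
  classical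
  rw [len_iff]
  intro u hu
  rw [H47.Gr.coeff_smul] at hu
  by_contra h
  apply hu
  have h1 : (1 : A K n) = MonoidAlgebra.single 1 1 := rfl
  rw [h1, MonoidAlgebra.coeff_single_apply, if_neg, mul_zero]
  rintro rfl
  exact h (by simp)

theorem len_xx (i : Fin n) : Len 1 (xx i : A K n) := by
  classical
  rw [len_iff]
  intro u hu
  unfold xx at hu
  rw [MonoidAlgebra.coeff_single_apply] at hu
  by_cases h : FreeMonoid.of i = u
  · rw [← h]; simp
  · rw [if_neg h] at hu
    exact absurd rfl hu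

theorem len_pow (i : Fin n) (k : ℕ) : Len k ((xx i : A K n) ^ k) := by
  induction k with
  | zero =>
    have := len_one_smul (K := K) (n := n) 1
    rwa [one_smul] at this
  | succ k ih => rw [pow_succ]; exact len_mul ih (len_xx i)

theorem len_smul {m : ℕ} {f : A K n} (c : K) (hf : Len m f) : Len m (c • f) := by
  rw [len_iff] at *
  intro u hu
  rw [H47.Gr.coeff_smul] at hu
  exact hf u (right_ne_zero_of_mul hu)

theorem len_zero (m : ℕ) : Len m (0 : A K n) := by
  rw [len_iff]
  intro u hu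
  exact absurd (H47.coeff_zero' u) hu

theorem len_sum {ι : Type*} (s : Finset ι) (F : ι → A K n) (m : ℕ) (h : ∀ i ∈ s, Len m (F i)) :
    Len m (∑ i ∈ s, F i) := by
  classical
  induction s using Finset.induction_on with
  | empty => rw [Finset.sum_empty]; exact len_zero m
  | insert a s ha ih =>
    rw [Finset.sum_insert ha]
    exact len_add (h a (Finset.mem_insert_self a s))
      (ih fun i hi => h i (Finset.mem_insert_of_mem hi))

theorem len_aeval (R : Polynomial K) {m : ℕ} (h : R.natDegree ≤ m) :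
    Len m (Polynomial.aeval (xx 1 : A K 2) R) := by
  rw [Polynomial.aeval_eq_sum_range]
  refine len_sum _ _ _ fun i hi => ?_
  rw [Finset.mem_range] at hi
  exact len_mono (len_smul _ (len_pow 1 i)) (by omega)

theorem exists_comap (f : A K n) (φ : Wd n → Wd n) (hφ : Function.Injective φ) :
    ∃ U : A K n, ∀ u, U.coeff u = f.coeff (φ u) :=
  ⟨MonoidAlgebra.ofCoeff (Finsupp.comapDomain φ f.coeff hφ.injOn), fun _ => rfl⟩

open Classical in
theorem exists_filter (f : A K n) (p : Wd n → Prop) :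
    ∃ U : A K n, ∀ u, U.coeff u = if p u then f.coeff u else 0 :=
  ⟨MonoidAlgebra.ofCoeff (f.coeff.filter p), fun u => by
    change (f.coeff.filter p) u = _
    rw [Finsupp.filter_apply]⟩

theorem ne_left (i : Fin n) (a : Wd n) : FreeMonoid.of i * a ≠ 1 := by
  intro h
  have := congrArg (fun u : Wd n => u.toList.length) h
  simp [FreeMonoid.toList_mul] at this

theorem ne_right (i : Fin n) (a : Wd n) : a * FreeMonoid.of i ≠ 1 := by
  intro h
  have := congrArg (fun u : Wd n => u.toList.length) h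
  simp [FreeMonoid.toList_mul] at this

/-- structure of polynomials in which the letter `X` occurs only at the ends of words -/
theorem struct (Q : A K 2)
    (hQ : ∀ u v : Wd 2, Q.coeff (u * FreeMonoid.of 0 * v) ≠ 0 → u = 1 ∨ v = 1) :
    ∃ U V W : A K 2, dX 0 Q = inr U + inl V ∧ dX 0 U = inl W ∧ dX 0 V = inr W ∧ dX 0 W = 0 := by
  classical
  obtain ⟨U, hU⟩ := exists_comap Q (fun v => FreeMonoid.of 0 * v) (mul_right_injective _)
  obtain ⟨V0, hV0⟩ := exists_comap Q (fun v => v * FreeMonoid.of 0) (mul_left_injective _)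
  obtain ⟨V, hV⟩ := exists_filter V0 (fun u => u ≠ 1)
  obtain ⟨W, hW⟩ := exists_comap Q (fun v => FreeMonoid.of 0 * v * FreeMonoid.of 0)
    (fun a b h => mul_left_cancel (mul_right_cancel h))
  have hQ' : ∀ u v : Wd 2, u ≠ 1 → v ≠ 1 → Q.coeff (u * FreeMonoid.of 0 * v) = 0 := by
    intro u v hu hv
    by_contra h
    rcases hQ u v h with h | h
    · exact hu h
    · exact hv h
  refine ⟨U, V, W, ?_, ?_, ?_, ?_⟩
  · refine H47.Gr.ext' ?_
    rintro ⟨u, v⟩
    obtain ⟨v, rfl⟩ : ∃ v', v = op v' := ⟨v.unop, rfl⟩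
    rw [H74.coeff_dX, H47.Gr.coeff_add, H47.coeff_inr, H47.coeff_inl]
    simp only [op_eq_one_iff, unop_op]
    by_cases hu : u = 1
    · subst hu
      rw [if_pos rfl, hU, one_mul]
      by_cases hv : v = 1
      · subst hv
        rw [if_pos rfl, hV, if_neg (fun h => h rfl), add_zero]
      · rw [if_neg hv, add_zero]
    · rw [if_neg hu, zero_add]
      by_cases hv : v = 1
      · subst hv
        rw [if_pos rfl, hV, if_pos hu, hV0, mul_one]
      · rw [if_neg hv, hQ' u v hu hv]
  · refine H47.Gr.ext' ?_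
    rintro ⟨u, v⟩
    obtain ⟨v, rfl⟩ : ∃ v', v = op v' := ⟨v.unop, rfl⟩
    rw [H74.coeff_dX, H47.coeff_inl, hU]
    simp only [op_eq_one_iff]
    by_cases hv : v = 1
    · subst hv
      rw [if_pos rfl, hW, mul_one, mul_assoc]
    · rw [if_neg hv]
      have := hQ' (FreeMonoid.of 0 * u) v (ne_left _ _) hv
      rw [← mul_assoc, ← mul_assoc]
      exact this
  · refine H47.Gr.ext' ?_
    rintro ⟨u, v⟩
    obtain ⟨v, rfl⟩ : ∃ v', v = op v' := ⟨v.unop, rfl⟩
    have h0 : u * FreeMonoid.of 0 * v ≠ 1 := by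
      intro h
      have := congrArg (fun u : Wd 2 => u.toList.length) h
      simp [FreeMonoid.toList_mul] at this
    rw [H74.coeff_dX, H47.coeff_inr, hV, if_pos h0, hV0]
    simp only [unop_op]
    by_cases hu : u = 1
    · subst hu
      rw [if_pos rfl, hW, one_mul]
    · rw [if_neg hu]
      have := hQ' u (v * FreeMonoid.of 0) hu (ne_right _ _)
      rw [← mul_assoc] at this
      exact this
  · refine H47.Gr.ext' ?_
    rintro ⟨u, v⟩
    obtain ⟨v, rfl⟩ : ∃ v', v = op v' := ⟨v.unop, rfl⟩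
    rw [H74.coeff_dX, hW, H47.coeff_zero']
    have := hQ' (FreeMonoid.of 0 * u) (v * FreeMonoid.of 0) (ne_left _ _) (ne_right _ _)
    rw [← mul_assoc] at this
    rw [← mul_assoc, ← mul_assoc]
    exact this

end

section

variable {K : Type*} [Field K] {w : Fin 3 → ℝ}

theorem dX_sub (P Q : A K 2) : dX 0 (P - Q) = dX 0 P - dX 0 Q := by
  rw [sub_eq_add_neg, ← neg_one_smul K Q, H74.dX_add, H74.dX_smul, neg_one_smul, ← sub_eq_add_neg]

/-- the value of a polynomial of bounded length -/
theorem dg_ev_le (hd : DegFacts K w) (f g : A K 3) (hgf : dg w g ≤ dg w f) (m : ℕ) (P : A K 2)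
    (hP : Len m P) : dg w (ev P f g) ≤ m * dg w f := by
  have hw : ∀ u : Wd 2, dg w (FreeMonoid.lift ![f, g] u) ≤ u.toList.length * dg w f := by
    intro u
    induction u using FreeMonoid.inductionOn' with
    | one =>
      rw [map_one]
      have := hd.const (1 : K)
      rw [one_smul] at this
      rw [this]; simp
    | of_mul i u ih =>
      rw [map_mul, FreeMonoid.lift_eval_of]
      refine (hd.mul_le _ _).trans ?_
      have h1 : dg w (![f, g] i) ≤ dg w f := by
        fin_cases i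
        · exact le_rfl
        · exact hgf
      rw [FreeMonoid.toList_mul, List.length_append, FreeMonoid.toList_of, List.length_singleton]
      push_cast
      linarith
  have h0 : ev P f g = ∑ u ∈ P.coeff.support, P.coeff u • FreeMonoid.lift ![f, g] u := by
    conv_lhs => rw [← MonoidAlgebra.sum_coeff_single P]
    rw [Finsupp.sum, H74.ev_eq, map_sum]
    refine Finset.sum_congr rfl fun u _ => ?_
    rw [H74.evl_single]
  rw [h0]
  refine hd.sum_le _ _ _ _ (mul_nonneg (Nat.cast_nonneg _) (hd.nn f)) fun u hu => ?_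
  refine (hd.smul_le _ _).trans ((hw u).trans ?_)
  exact mul_le_mul_of_nonneg_right (Nat.cast_le.2 (hP u hu)) (hd.nn f)

/-- consequence of (V2): `|D_X P (f,g)| ≤ |P(f,g)|` -/
theorem key (F : Facts K w) (hB : DegbFacts K w) (f g : A K 3) (hfg : f * g ≠ g * f)
    (hE : dg w g < E w f g) (P : A K 2) :
    dg2 w (evl2 ![f, g] (dX 0 P)) ≤ dg w (ev P f g) ∧
    (evl2 ![f, g] (dX 0 P) ≠ 0 → dg2 w (evl2 ![f, g] (dX 0 P)) < dg w (ev P f g)) := by
  have h : evl2 ![f, g] (dX 0 P) ≠ 0 →
      dg2 w (evl2 ![f, g] (dX 0 P)) < dg w (ev P f g) := by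
    intro h
    have h1 := F.e.v2 f g P hfg h
    have h2 := F.e.le (ev P f g) g
    linarith
  refine ⟨?_, h⟩
  by_cases h0 : evl2 ![f, g] (dX 0 P) = 0
  · rw [h0, hB.zero]
    exact F.d.nn _
  · exact (h h0).le

theorem natDegree_le (hd : DegFacts K w) (g : A K 3) (hg : 0 < dg w g) (R : Polynomial K) (m : ℕ)
    (h : dg w (Polynomial.aeval g R) ≤ m * dg w g) : R.natDegree ≤ m := by
  rw [hd.poly g R hg] at h
  have := le_of_mul_le_mul_right h hg
  exact_mod_cast this

/-- polynomials with `X` only at the ends of words -/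
theorem len_of_ends (F : Facts K w) (hB : DegbFacts K w) (hC : ∀ n : ℕ, ChainFacts K n)
    (C0 M : ℕ) (f g : A K 3) (hfg : f * g ≠ g * f) (hE : dg w g < E w f g)
    (hf : dg w f ≤ C0 * dg w g) (Q : A K 2)
    (hQ : ∀ u v : Wd 2, Q.coeff (u * FreeMonoid.of 0 * v) ≠ 0 → u = 1 ∨ v = 1)
    (hM : dg w (ev Q f g) ≤ M * dg w g) : Len (M + 2 * C0 + 2) Q := by
  have hg : 0 < dg w g := (F.e.pos f g hfg).2.2
  obtain ⟨U, V, W, h1, h2, h3, h4⟩ := struct Q hQ
  have hUV : max (dg w (ev U f g)) (dg w (ev V f g)) ≤ M * dg w g := by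
    rw [← hB.two, H74.ev_eq, H74.ev_eq, ← H74.e2_inr, ← H74.e2_inl, ← H74.e2_add, ← h1]
    exact (key F hB f g hfg hE Q).1.trans hM
  have hU := (le_max_left _ _).trans hUV
  have hV := (le_max_right _ _).trans hUV
  have hW : dg w (ev W f g) ≤ M * dg w g := by
    rw [← hB.inl', H74.ev_eq, ← H74.e2_inl, ← h2]
    exact (key F hB f g hfg hE U).1.trans hU
  obtain ⟨R3, hR3⟩ := H41.poly_of_dX_zero (hC 2) W h4
  have hn3 : R3.natDegree ≤ M := by
    apply natDegree_le F.d g hg
    rw [← H41.ev_aeval f g, ← hR3]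
    exact hW
  have hl3 : Len M W := by rw [hR3]; exact len_aeval _ hn3
  have hX : dX 0 (xx 0 : A K 2) = 1 := by rw [H74.dX_xx, if_pos rfl]
  -- `U`
  have hU1 : dX 0 (U - W * xx 0) = 0 := by
    rw [dX_sub, h2, H74.dX_mul, h4, hX, mul_one, mul_zero, add_zero, sub_self]
  obtain ⟨R1, hR1⟩ := H41.poly_of_dX_zero (hC 2) _ hU1
  have hn1 : R1.natDegree ≤ M + C0 := by
    apply natDegree_le F.d g hg
    rw [← H41.ev_aeval f g, ← hR1, H74.ev_eq, map_sub, map_mul, ← H74.ev_eq, ← H74.ev_eq,
      ← H74.ev_eq, H41.ev_x]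
    refine (F.d.sub_le _ _).trans (max_le ?_ ((F.d.mul_le _ _).trans ?_))
    · push_cast
      nlinarith [Nat.cast_nonneg (α := ℝ) C0]
    · push_cast
      linarith
  have hlU : Len (M + C0 + 1) U := by
    have h5 : U = W * xx 0 + Polynomial.aeval (xx 1) R1 := by rw [← hR1]; abel
    rw [h5]
    exact len_add (len_mono (len_mul hl3 (len_xx 0)) (by omega))
      (len_mono (len_aeval R1 hn1) (by omega))
  -- `V`
  have hV1 : dX 0 (V - xx 0 * W) = 0 := by
    rw [dX_sub, h3, H74.dX_mul, h4, hX, mul_one, mul_zero, zero_add, sub_self]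
  obtain ⟨R2, hR2⟩ := H41.poly_of_dX_zero (hC 2) _ hV1
  have hn2 : R2.natDegree ≤ M + C0 := by
    apply natDegree_le F.d g hg
    rw [← H41.ev_aeval f g, ← hR2, H74.ev_eq, map_sub, map_mul, ← H74.ev_eq, ← H74.ev_eq,
      ← H74.ev_eq, H41.ev_x]
    refine (F.d.sub_le _ _).trans (max_le ?_ ((F.d.mul_le _ _).trans ?_))
    · push_cast
      nlinarith [Nat.cast_nonneg (α := ℝ) C0]
    · push_cast
      linarith
  have hlV : Len (M + C0 + 1) V := by
    have h5 : V = xx 0 * W + Polynomial.aeval (xx 1) R2 := by rw [← hR2]; abel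
    rw [h5]
    exact len_add (len_mono (len_mul (len_xx 0) hl3) (by omega))
      (len_mono (len_aeval R2 hn2) (by omega))
  -- `Q`
  have hQ1 : dX 0 (Q - (xx 0 * U + V * xx 0) + xx 0 * (W * xx 0)) = 0 := by
    rw [H74.dX_add, dX_sub, H74.dX_add, H74.dX_mul, H74.dX_mul, H74.dX_mul, H74.dX_mul, h1, h2,
      h3, h4, hX, H74.inr_mul]
    simp only [mul_one, mul_zero, add_zero]
    abel
  obtain ⟨R0, hR0⟩ := H41.poly_of_dX_zero (hC 2) _ hQ1
  have hn0 : R0.natDegree ≤ M + 2 * C0 := by
    apply natDegree_le F.d g hg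
    rw [← H41.ev_aeval f g, ← hR0, H74.ev_eq, map_add, map_sub, map_add, map_mul, map_mul,
      map_mul, map_mul, ← H74.ev_eq, ← H74.ev_eq,
      ← H74.ev_eq, ← H74.ev_eq, ← H74.ev_eq, H41.ev_x]
    have hC0 : 0 ≤ (C0 : ℝ) * dg w g := mul_nonneg (Nat.cast_nonneg _) hg.le
    have e1 := F.d.mul_le f (ev U f g)
    have e2 := F.d.mul_le (ev V f g) f
    have e3 := F.d.mul_le (ev W f g) f
    have e4 := F.d.mul_le f (ev W f g * f)
    push_cast
    refine (F.d.add_le _ _).trans (max_le ((F.d.sub_le _ _).trans (max_le ?_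
      ((F.d.add_le _ _).trans (max_le ?_ ?_)))) ?_) <;> linarith
  have h5 : Q = xx 0 * U + V * xx 0 - xx 0 * (W * xx 0) + Polynomial.aeval (xx 1) R0 := by
    rw [← hR0]; abel
  rw [h5]
  refine len_add (len_sub (len_add ?_ ?_) ?_) ?_
  · exact len_mono (len_mul (len_xx 0) hlU) (by omega)
  · exact len_mono (len_mul hlV (len_xx 0)) (by omega)
  · exact len_mono (len_mul (len_xx 0) (len_mul hl3 (len_xx 0))) (by omega)
  · exact len_mono (len_aeval R0 hn0) (by omega)

theorem sum_coeff {G ι : Type*} (s : Finset ι) (F : ι → MonoidAlgebra K G) (u : G) :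
    (∑ i ∈ s, F i).coeff u = ∑ i ∈ s, (F i).coeff u := by
  classical
  induction s using Finset.induction_on with
  | empty => rw [Finset.sum_empty, Finset.sum_empty, H47.coeff_zero']
  | insert a s ha ih => rw [Finset.sum_insert ha, Finset.sum_insert ha, H47.Gr.coeff_add, ih]

theorem e2_sum {ι : Type*} (s : Finset ι) (f g : A K 3) (F : ι → A2 K 2) :
    evl2 ![f, g] (∑ i ∈ s, F i) = ∑ i ∈ s, evl2 ![f, g] (F i) := by
  classical
  induction s using Finset.induction_on with
  | empty => rw [Finset.sum_empty, Finset.sum_empty, H74.e2_zero]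
  | insert a s ha ih => rw [Finset.sum_insert ha, Finset.sum_insert ha, H74.e2_add, ih]

/-- the orthogonal decomposition of `D_X P` -/
theorem decomp (F : Facts K w) (hC : ∀ n : ℕ, ChainFacts K n) (hO : OrStatement K w)
    (f g : A K 3) (hfg : f * g ≠ g * f) (P : A K 2) :
    ∃ (m : ℕ) (e e' : Fin m → A K 2), (∀ i, dg w (ev (e i) f g) + dg w (ev (e' i) f g) ≤
      dg2 w (evl2 ![f, g] (dX 0 P))) ∧ dX 0 P = ∑ i, tn (e i) (e' i) := by
  obtain ⟨m, e, e', h1, h2⟩ := hO (Subalgebra.toSubmodule (B f g)) (evl2 ![f, g] (dX 0 P)) (by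
    unfold evl2
    refine Submodule.sum_mem _ fun p _ => Submodule.smul_mem _ _ (Submodule.subset_span ?_)
    exact ⟨_, H74.ev_mem f g _, _, H74.ev_mem f g _, rfl⟩)
  have h3 : ∀ i, ∃ P : A K 2, e i = ev P f g := fun i => ((hC 3).bmem f g _).1 (h1 i).1
  have h4 : ∀ i, ∃ P : A K 2, e' i = ev P f g := fun i => ((hC 3).bmem f g _).1 (h1 i).2.1
  choose q hq using h3
  choose q' hq' using h4
  refine ⟨m, q, q', fun i => ?_, ?_⟩
  · rw [← hq, ← hq']
    exact (h1 i).2.2.2.2
  · have h5 : evl2 ![f, g] (dX 0 P + (-1 : K) • ∑ i, tn (q i) (q' i)) = 0 := by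
      rw [(hC 3).e2add, (hC 3).e2smul, e2_sum, h2]
      have : ∀ i, evl2 ![f, g] (tn (q i) (q' i)) = tn (e i) (e' i) := by
        intro i
        rw [(hC 3).e2tn, ← hq, ← hq']
      simp only [this]
      rw [neg_one_smul, add_neg_cancel]
    have h6 := F.e.inj2 f g _ hfg h5
    rw [neg_one_smul, ← sub_eq_add_neg, sub_eq_zero] at h6
    exact h6

/-- module BD -/
theorem bd (K : Type*) [Field K] (w : Fin 3 → ℝ) (_hw : Gen w) (F : Facts K w)
    (hC : ∀ n : ℕ, ChainFacts K n) (hB : DegbFacts K w) (hO : OrStatement K w) :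
    BdStatement K w := by
  classical
  intro C0 C
  induction C with
  | zero =>
    refine ⟨0, fun f g hfg _ _ _ _ P hP => ?_⟩
    have h0 : dg w (ev P f g) = 0 := le_antisymm (by simpa using hP) (F.d.nn _)
    obtain ⟨c, hc⟩ := F.d.of_zero _ h0
    have h1 : ev (P - c • 1) f g = 0 := by
      rw [H74.ev_eq, map_sub, map_smul, map_one, ← H74.ev_eq, hc, sub_self]
    have h2 := F.e.inj f g _ hfg h1
    rw [sub_eq_zero] at h2
    rw [h2]
    exact len_one_smul c
  | succ C ih =>
    obtain ⟨L, hL⟩ := ih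
    refine ⟨max (2 * L + 1) (max (C + 1) ((2 * L + 1) * C0) + 2 * C0 + 2),
      fun f g hfg hnd hgd hgf hf P hP => ?_⟩
    have hg : 0 < dg w g := (F.e.pos f g hfg).2.2
    have hE : dg w g < E w f g := by
      have h1 := hgd.lmax
      rw [max_eq_left hgf.le] at h1
      unfold Df at h1
      linarith
    -- words `u X v` with `u, v ≠ 1` are short
    have hsh : ∀ u v : Wd 2, u ≠ 1 → v ≠ 1 → P.coeff (u * FreeMonoid.of 0 * v) ≠ 0 →
        u.toList.length ≤ L ∧ v.toList.length ≤ L := by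
      intro u v hu hv hne
      obtain ⟨m, e, e', h1, h2⟩ := decomp F hC hO f g hfg P
      rw [← H74.coeff_dX, h2, sum_coeff] at hne
      obtain ⟨i, _, hi⟩ := Finset.exists_ne_zero_of_sum_ne_zero hne
      rw [H47.coeff_tn] at hi
      have hT : evl2 ![f, g] (dX 0 P) ≠ 0 := by
        intro h0
        have h3 := F.e.inj2 f g _ hfg h0
        rw [← sum_coeff, ← h2, h3] at hne
        exact hne (H47.coeff_zero' _)
      have h3 := (key F hB f g hfg hE P).2 hT
      have hge : ∀ (q : A K 2) (x : Wd 2), x ≠ 1 → q.coeff x ≠ 0 → dg w g ≤ dg w (ev q f g) := by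
        intro q x hx hqx
        by_contra hlt
        rw [not_le] at hlt
        obtain ⟨c, hc⟩ := F.t.xe0 f g (ev q f g) hfg hgf hnd.nfg hE (H74.ev_mem f g q) hlt
        have h1 : ev (q - c • 1) f g = 0 := by
          rw [H74.ev_eq, map_sub, map_smul, map_one, ← H74.ev_eq, hc, sub_self]
        have h2 := F.e.inj f g _ hfg h1
        rw [sub_eq_zero] at h2
        have h4 := (len_iff.1 (len_one_smul (n := 2) c)) x (by rw [← h2]; exact hqx)
        rw [Nat.le_zero, List.length_eq_zero_iff] at h4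
        exact hx (FreeMonoid.toList.injective h4)
      have h4 := hge (e i) u hu (left_ne_zero_of_mul hi)
      have h5 := hge (e' i) v hv (right_ne_zero_of_mul hi)
      have h6 := h1 i
      push_cast at hP
      constructor
      · exact (len_iff.1 (hL f g hfg hnd hgd hgf hf (e i) (by linarith))) u
          (left_ne_zero_of_mul hi)
      · exact (len_iff.1 (hL f g hfg hnd hgd hgf hf (e' i) (by linarith))) v
          (right_ne_zero_of_mul hi)
    obtain ⟨Pb, hPb⟩ := exists_filter P (fun u => u.toList.length ≤ 2 * L + 1)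
    have hlb : Len (2 * L + 1) Pb := by
      rw [len_iff]
      intro u hu
      rw [hPb] at hu
      by_contra h
      rw [if_neg h] at hu
      exact hu rfl
    have hbd := dg_ev_le F.d f g hgf.le _ Pb hlb
    have hQ : Len (max (C + 1) ((2 * L + 1) * C0) + 2 * C0 + 2) (P - Pb) := by
      refine len_of_ends F hB hC C0 _ f g hfg hE hf _ ?_ ?_
      · intro u v hne
        by_contra hc
        push Not at hc
        rw [H47.Gr.coeff_sub, hPb] at hne
        by_cases hl : (u * FreeMonoid.of 0 * v).toList.length ≤ 2 * L + 1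
        · rw [if_pos hl, sub_self] at hne
          exact hne rfl
        · rw [if_neg hl, sub_zero] at hne
          obtain ⟨h1, h2⟩ := hsh u v hc.1 hc.2 hne
          apply hl
          simp only [FreeMonoid.toList_mul, FreeMonoid.toList_of, List.length_append,
            List.length_singleton]
          omega
      · rw [H74.ev_eq, map_sub, ← H74.ev_eq, ← H74.ev_eq]
        refine (F.d.sub_le _ _).trans (max_le (hP.trans ?_) (hbd.trans ?_))
        · exact mul_le_mul_of_nonneg_right (Nat.cast_le.2 (le_max_left _ _)) hg.le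
        · calc ((2 * L + 1 : ℕ) : ℝ) * dg w f ≤ ((2 * L + 1 : ℕ) : ℝ) * (C0 * dg w g) :=
                mul_le_mul_of_nonneg_left hf (Nat.cast_nonneg _)
            _ = (((2 * L + 1) * C0 : ℕ) : ℝ) * dg w g := by push_cast; ring
            _ ≤ _ := mul_le_mul_of_nonneg_right (Nat.cast_le.2 (le_max_right _ _)) hg.le
    have h5 : P = Pb + (P - Pb) := by abel
    rw [h5]
    exact len_add (len_mono hlb (le_max_left _ _)) (len_mono hQ (le_max_right _ _))

end

end Pool.Agent.Lib.MP_e1f7e2_al.FA.H19
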