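import Pool.Agent.Lib.MP_e1f7e2_al.FA.Iface

set_option autoImplicit false

/-!
Project FA (MP_e1f7e2_al), module CPRED (helper19): Lemma C' for reduced pairs.
-/

namespace Pool.Agent.Lib.MP_e1f7e2_al.FA.H19

open Pool.Agent.Lib.MP_e1f7e2_al.FA

variable {K : Type*} [Field K] {w : Fin 3 → ℝ}

/-- an approximation by a polynomial in `g` gives divisibility -/
theorem dv_of_poly (F : Facts K w) (m g : A K 3) (R : Polynomial K) (hm : 0 < dg w m) (hg : 0 < dg w g)
    (h : dg w (m - Polynomial.aeval g R) < dg w m) : Dv w m g := by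
  have h1 : dg w (Polynomial.aeval g R) = dg w m := F.t.dgtop m _ h
  have h2 : dg w (Polynomial.aeval g R) = R.natDegree * dg w g := F.d.poly g R hg
  have h3 : (Polynomial.aeval g R : A K 3) * g = g * Polynomial.aeval g R := by
    have e1 : (Polynomial.aeval g R : A K 3) * g = Polynomial.aeval g (R * Polynomial.X) := by
      rw [map_mul, Polynomial.aeval_X]
    have e2 : g * (Polynomial.aeval g R : A K 3) = Polynomial.aeval g (Polynomial.X * R) := by
      rw [map_mul, Polynomial.aeval_X]
    rw [e1, e2, mul_comm]
  have h4 : Com w (Polynomial.aeval g R : A K 3) g := by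
    unfold Com
    rw [F.e.zero _ _ h3]
    linarith
  have h5 : Com w m g := by
    refine F.t.comtop (Polynomial.aeval g R) m g (by rw [h1]; exact hm) hg ?_ h4
    rw [F.d.sub_comm, h1]
    exact h
  exact F.e.dv m g R.natDegree hm hg h5 (by rw [← h1, h2])

theorem cpred (K : Type*) [Field K] (w : Fin 3 → ℝ) (F : Facts K w) (hS : StrStatement K w) :
    CpredStatement K w := by
  intro ν u v l hA hB hLB hFr hRed hvd hMn hnuv hnvu hi hii
  have hnc : u * v ≠ v * u := F.f.nc u v l hFr
  have pu : 0 < dg w u := F.f.pos u v l hFr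
  have pv : 0 < dg w v := F.f.pos v u l (F.f.p12 _ _ _ hFr)
  have pl : 0 < dg w l := F.f.pos l u v (F.f.p12 _ _ _ (F.f.p23 _ _ _ hFr))
  have hMn' : Mn w l v u := by
    intro q hq
    rw [F.s.bcomm] at hq
    exact hMn q hq
  have hND : Com w u v → ND w u v := fun hc => ⟨pu, pv, hc, hnuv, hnvu⟩
  have hOr2 : Or2 w u v := by
    by_cases hc : Com w u v
    · exact F.o.ndor u v (hND hc)
    · exact F.o.or2nc u v pu pv hc
  -- the claim
  have hbig : dg w u + dg w v ≤ dg w l := by
    rcases hi with h | h | h
    · exact h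
    · have e1 : 0 ≤ Df w l u := by
        have := F.e.le l u
        unfold Df
        linarith
      by_cases hc : Com w u v
      · by_cases hd : Df w l u < Df w u v
        · have h3 := (hLB u v l hFr hRed hvd (hND hc) hMn hd).2.2
          have h4 : 0 < min (dg w u) (dg w v) := lt_min pu pv
          linarith
        · have h5 : Df w u v = dg w u + dg w v - E w u v := rfl
          linarith
      · unfold Com at hc
        linarith
    · have e1 : 0 ≤ Df w l v := by
        have := F.e.le l v
        unfold Df
        linarith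
      by_cases hc : Com w u v
      · have hE : E w v u = E w u v := F.e.comm v u
        by_cases hd : Df w l v < Df w v u
        · have hs : sp v u l = sp u v l := F.s.scomm v u l
          have h3 := (hLB v u l (F.f.p12 _ _ _ hFr) (by rw [hs]; exact hRed) (by rw [hs]; exact hvd)
            (F.t.ndsymm _ _ (hND hc)) hMn' hd).2.2
          have h4 : 0 < min (dg w v) (dg w u) := lt_min pv pu
          linarith
        · have h5 : Df w v u = dg w v + dg w u - E w v u := rfl
          linarith
      · unfold Com at hc
        linarith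
  -- the degree is larger than `s`
  have hOr3 : Or3 w u v l := F.o.mn3 u v l hFr hOr2 fun r hr => hMn r (F.s.linB u v r hr)
  have hsg : sg w < vd w (sp u v l) := by
    by_contra hcon
    rw [not_lt, F.v.eq u v l hFr hOr3] at hcon
    obtain ⟨d, hd, hd0, q, hq, hlt⟩ := hii
    have := (F.b u v l hFr hOr3 hcon).2 d hd hd0 q hq
    linarith
  obtain ⟨l', m', c, t, hF1, hO1, hlin, hsp, hF2, hO3, hF3, hR3, hv3, hMt, hcase⟩ :=
    hS ν u v l hA hFr hOr2 hMn hRed hsg hvd.le
  have pl' : 0 < dg w l' := F.f.pos l' m' c hF1
  have pm' : 0 < dg w m' := F.f.pos m' l' c (F.f.p12 _ _ _ hF1)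
  have pc : 0 < dg w c := F.f.pos c l' t (F.f.p12 _ _ _ hF3)
  have hdeg := F.o.or2deg u v l' m' hnc hOr2 hO1 hlin.symm
  have hsum : dg w l' + dg w m' = dg w u + dg w v := by
    rcases hdeg with ⟨a1, a2⟩ | ⟨a1, a2⟩
    · rw [a1, a2]
    · rw [a1, a2]; ring
  have hE : E w l' m' = E w u v := F.o.elin u v l' m' hnc hlin.symm
  have hred : ¬ Dv w m' l' := by
    intro hdv
    by_cases hc : Com w u v
    · exact (F.o.ndlin u v l' m' hnc (hND hc) hO1 hlin.symm).ngf hdv
    · have h1 := (F.e.dv' m' l' pm' hdv).2.1
      unfold Com at h1 hc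
      rw [F.e.comm, hE] at h1
      linarith
  rcases hcase with ⟨hMc, ⟨k, hk⟩, hcl, hOc, hP, ht⟩ | ⟨-, hlm, -, -⟩
  · -- case (I)
    have hPd : dg w (m' - t) = dg w m' := F.d.sub_left m' t ht
    have hPc : dg w (m' - t) < dg w c := by rw [hPd, hcl]; linarith
    have hlc : dg w l' < dg w c := by rw [hcl]; linarith
    have hpoly : ∀ R : Polynomial K, m' - t = Polynomial.aeval l' R → False := by
      intro R hR
      apply hred
      refine dv_of_poly F m' l' R pm' pl' ?_
      rw [← hR]
      have : m' - (m' - t) = t := by abel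
      rw [this]
      exact ht
    by_cases hc : Com w c l'
    · by_cases hd1 : Dv w c l'
      · obtain ⟨a, j, hj, hlt⟩ := hd1
        have hmem : - (a • l' ^ j) ∈ B u v := by
          apply neg_mem
          apply Subalgebra.smul_mem
          apply pow_mem
          rw [← F.s.blin l' m' u v hlin]
          exact F.s.bf l' m'
        have := hMc _ hmem
        rw [← sub_eq_add_neg] at this
        linarith
      · by_cases hd2 : Dv w l' c
        · obtain ⟨-, -, a, j, ha, hj, hjd, -⟩ := F.e.dv' l' c pl' hd2
          have : (1 : ℝ) ≤ j := by exact_mod_cast hj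
          nlinarith
        · have hNDc : ND w c l' := ⟨pc, pl', hc, hd1, hd2⟩
          have hG : Gd w c l' := by
            apply F.t.gdsymm
            exact hB l' c t hF3 (hv3.trans hvd) hR3 (F.t.ndsymm _ _ hNDc)
          have hncc : c * l' ≠ l' * c := F.f.nc c l' t (F.f.p12 _ _ _ hF3)
          obtain ⟨a, R, hq, -, ha⟩ := F.t.w1 c l' (m' - t) hncc hNDc hG hlc hP hPc
          by_cases ha0 : a = 0
          · apply hpoly R
            rw [hq, ha0, zero_smul, zero_add]
          · have h1 := (ha ha0).1
            have h2 := hG.lmin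
            rw [min_eq_right hlc.le] at h2
            have h3 : Df w c l' = dg w c + dg w l' - E w c l' := rfl
            rw [hPd] at h1
            linarith
    · obtain ⟨R, hR⟩ := F.t.fr1 l' c (m' - t) pl' pc (by
        intro h
        apply hc
        unfold Com at h ⊢
        rw [F.e.comm]
        linarith) (by rw [F.s.bcomm]; exact hP) hPc
      exact hpoly R hR
  · linarith

end Pool.Agent.Lib.MP_e1f7e2_al.FA.H19
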